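import Pool.Agent.Q227.SK.Red
import Pool.Agent.H673R2.Search

/-!
# Finding skew partitions of balanced size is NP-hard on bipartite graphs, for every constant

The definitions `IsSkewPartition`, `IsBalanced` are in `Pool.Agent.Q227.SK.Math`, and `IsPerfect`,
`BipPerfect`, `HasBSP` in `Pool.Agent.Q227.SK.Red`.

In a bipartite graph the sets `C` and `D` form a complete bipartite graph. The reduction adds
isolated vertices to an instance of the balanced complete bipartite subgraph problem, which has a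
complete bipartite subgraph with `t + t` vertices if and only if a given graph has a clique of a
given size, and at most `3 t` vertices.  For real constants `c` the right number `⌊c t⌋` of all
vertices is found with the help of the algorithm itself, from its answers on complete bipartite
graphs with isolated vertices.
-/

set_option autoImplicit false

namespace Pool.Agent.Results.MP_447f9a_lc.BipartiteNPHard

open Pool.Agent.NPC Pool.Agent.H673R2 Pool.Agent.H679R2 Pool.Agent.NPC.H634R2 Pool.Agent.Q227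
  Pool.Agent.Q227.SK

/-- The four lists form a skew partition of balanced size of the presented graph, with constant
`c`. -/
def BSPSol (c : ℝ) (I : PG) (P : List ℕ × List ℕ × List ℕ × List ℕ) : Prop :=
  IsBalanced c (toGraph I) {v | v.1 ∈ P.1} {v | v.1 ∈ P.2.1} {v | v.1 ∈ P.2.2.1}
    {v | v.1 ∈ P.2.2.2}

theorem exists_sol {c : ℝ} {I : PG} : (∃ P, BSPSol c I P) ↔ HasBSP c I := by
  classical
  constructor
  · rintro ⟨P, h⟩
    exact ⟨_, _, _, _, h⟩
  · rintro ⟨A, B, C, D, h⟩
    have key : ∀ S : Set {v : ℕ // v ∈ I.1}, {v : {v : ℕ // v ∈ I.1} |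
        v.1 ∈ I.1.filter (fun v => decide (∃ h : v ∈ I.1, (⟨v, h⟩ : {v : ℕ // v ∈ I.1}) ∈ S))} =
          S := by
      intro S
      ext v
      rw [Set.mem_setOf_eq, List.mem_filter, decide_eq_true_eq]
      exact ⟨fun h => h.2.2, fun h => ⟨v.2, v.2, h⟩⟩
    refine ⟨(I.1.filter (fun v => decide (∃ h : v ∈ I.1, (⟨v, h⟩ : {v : ℕ // v ∈ I.1}) ∈ A)),
      I.1.filter (fun v => decide (∃ h : v ∈ I.1, (⟨v, h⟩ : {v : ℕ // v ∈ I.1}) ∈ B)),
      I.1.filter (fun v => decide (∃ h : v ∈ I.1, (⟨v, h⟩ : {v : ℕ // v ∈ I.1}) ∈ C)),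
      I.1.filter (fun v => decide (∃ h : v ∈ I.1, (⟨v, h⟩ : {v : ℕ // v ∈ I.1}) ∈ D))), ?_⟩
    unfold BSPSol
    rw [key, key, key, key]
    exact h

/-- The formula with two more clauses. -/
def pp (φ : List Cl3) : List Cl3 := pad ++ φ

theorem pp_poly : NPC.Poly pp := NPC.Poly.append (NPC.Poly.const pad) NPC.Poly.id

theorem two_le (φ : List Cl3) : 2 ≤ (pp φ).length := by
  simp [pp, pad]

theorem tt_pos (φ : List Cl3) : 0 < tt (pp φ) := by
  rw [tt_eq]
  exact Nat.choose_pos (by have := two_le φ; omega)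

/-- The number of vertices for rational constants. -/
def NN (c : ℚ) (φ : List Cl3) : ℕ := c.num.toNat * tt (pp φ) / c.den

theorem NN_spec {c : ℚ} (hc : 4 ≤ c) (φ : List Cl3) :
    (NN c φ : ℝ) ≤ (c : ℝ) * tt (pp φ) ∧ (c : ℝ) * tt (pp φ) < NN c φ + 1 := by
  have hden : (0 : ℝ) < c.den := by exact_mod_cast c.pos
  have h1 : (c : ℝ) * c.den = (c.num.toNat : ℝ) := by
    have h2 : c * c.den = c.num := Rat.mul_den_eq_num c
    have h3 : (0 : ℤ) ≤ c.num := Rat.num_nonneg.2 (by linarith)
    have h4 : ((c.num.toNat : ℤ) : ℝ) = (c.num : ℝ) := by rw [Int.toNat_of_nonneg h3]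
    have h5 : ((c * c.den : ℚ) : ℝ) = ((c.num : ℚ) : ℝ) := by rw [h2]
    push_cast at h5 h4
    rw [h5, h4]
  have h3 : NN c φ * c.den ≤ c.num.toNat * tt (pp φ) := Nat.div_mul_le_self _ _
  have h4 : c.num.toNat * tt (pp φ) < (NN c φ + 1) * c.den := by
    have := Nat.lt_div_mul_add c.pos (a := c.num.toNat * tt (pp φ))
    unfold NN
    rw [add_mul, one_mul]
    exact this
  have h3' : (NN c φ : ℝ) * c.den ≤ c.num.toNat * tt (pp φ) := by exact_mod_cast h3
  have h4' : (c.num.toNat : ℝ) * tt (pp φ) < (NN c φ + 1) * c.den := by exact_mod_cast h4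
  rw [← h1] at h3' h4'
  constructor
  · refine le_of_mul_le_mul_right ?_ hden
    linarith
  · refine lt_of_mul_lt_mul_right ?_ hden.le
    linarith

theorem NN_upoly (c : ℚ) : UPoly (NN c) := by
  have h1 : NPC.Poly (fun φ => tt (pp φ)) := tt_poly.comp pp_poly
  refine UPoly.of_le (n := fun φ => c.num.toNat * tt (pp φ)) ?_
    (UPoly.mul (UPoly.const _) (tt_upoly.comp pp_poly)) fun φ => Nat.div_le_self _ _
  unfold NN
  exact NPC.Poly.div (NPC.Poly.mul (NPC.Poly.const _) h1) (NPC.Poly.const _)

/-- The decision procedure for 3-satisfiability from one for the skew partitions. -/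
def dec (M : ℕ) (d : PG → Bool) (φ : List Cl3) : Bool :=
  (List.range (M * tt (pp φ) + 1)).any fun N => decide (4 * tt (pp φ) ≤ N) &&
    (d (cal N (tt (pp φ))) && (!d (cal (N + 1) (tt (pp φ))) && d (inst N (pp φ))))

theorem dec_poly (M : ℕ) {d : PG → Bool} (hd : NPC.Poly d) : NPC.Poly (dec M d) := by
  have hr : NPC.Poly (fun φ => List.range (M * tt (pp φ) + 1)) :=
    (UPoly.add (UPoly.mul (UPoly.const M) (tt_upoly.comp pp_poly)) (UPoly.const 1)).range
  -- the numbers `N`, in unary
  have hr2 : NPC.Poly (fun φ => (List.range (M * tt (pp φ) + 1)).map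
      fun N => List.replicate N ()) := by
    refine NPC.Poly.map (F := fun (φ : List Cl3) (N : ℕ) =>
      List.replicate (min N (M * tt (pp φ) + 1)) ()) hr ?_ |>.congr ?_
    · have h1 : UPoly (fun p : List Cl3 × ℕ => M * tt (pp p.1) + 1) :=
        UPoly.add (UPoly.mul (UPoly.const M) (tt_upoly.comp (pp_poly.comp
          (NPC.Poly.fst NPC.Poly.id)))) (UPoly.const 1)
      have h2 : NPC.Poly (fun p : List Cl3 × ℕ => M * tt (pp p.1) + 1) := h1.toPoly
      have h3 : NPC.Poly (fun p : List Cl3 × ℕ => min p.2 (M * tt (pp p.1) + 1)) := by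
        have h4 : NPC.Poly (fun p : List Cl3 × ℕ => p.2 - (p.2 - (M * tt (pp p.1) + 1))) := by
          fun_prop
        exact h4.congr fun p => by omega
      exact UPoly.of_le h3 h1 fun p => min_le_right _ _
    · intro φ
      refine List.map_congr_left fun N hN => ?_
      rw [List.mem_range] at hN
      rw [min_eq_left hN.le]
  have h : NPC.Poly (fun φ => ((List.range (M * tt (pp φ) + 1)).map
      fun N => List.replicate N ()).any fun u => decide (4 * tt (pp φ) ≤ u.length) &&
        (d (cal u.length (tt (pp φ))) && (!d (cal (u.length + 1) (tt (pp φ))) &&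
          d (inst u.length (pp φ))))) := by
    refine NPC.Poly.any (p := fun (φ : List Cl3) (u : List Unit) =>
      decide (4 * tt (pp φ) ≤ u.length) &&
        (d (cal u.length (tt (pp φ))) && (!d (cal (u.length + 1) (tt (pp φ))) &&
          d (inst u.length (pp φ))))) hr2 ?_
    have hu : UPoly (fun p : List Cl3 × List Unit => p.2.length) :=
      UPoly.length (NPC.Poly.snd NPC.Poly.id)
    have hu' : NPC.Poly (fun p : List Cl3 × List Unit => p.2.length) := hu.toPoly
    have hp : NPC.Poly (fun p : List Cl3 × List Unit => pp p.1) :=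
      pp_poly.comp (NPC.Poly.fst NPC.Poly.id)
    have ht : UPoly (fun p : List Cl3 × List Unit => tt (pp p.1)) := tt_upoly.comp hp
    have ht' : NPC.Poly (fun p : List Cl3 × List Unit => tt (pp p.1)) := ht.toPoly
    exact NPC.Poly.and (NPC.Poly.decide_le (NPC.Poly.mul (NPC.Poly.const 4) ht') hu')
      (NPC.Poly.and (hd.comp (cal_poly hu ht)) (NPC.Poly.and
        (NPC.Poly.not (hd.comp (cal_poly (UPoly.add hu (UPoly.const 1)) ht)))
        (hd.comp (inst_poly hu hp))))
  refine h.congr fun φ => ?_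
  unfold dec
  rw [List.any_map]
  congr 1
  funext N
  simp only [Function.comp_apply, List.length_replicate]

theorem dec_spec {c : ℝ} (hc : 4 ≤ c) {d : PG → Bool}
    (hd : ∀ I, BipPerfect I → (HasBSP c I ↔ d I = true)) (φ : List Cl3) :
    SAT3 φ ↔ dec ⌈c⌉₊ d φ = true := by
  have ht := tt_pos φ
  have hsat : SAT3 φ ↔ SAT3 (pp φ) := (sat3_pad φ).symm
  have hcal : ∀ N, 4 * tt (pp φ) ≤ N →
      (d (cal N (tt (pp φ))) = true ↔ (N : ℝ) ≤ c * tt (pp φ)) := fun N hN =>
    (hd _ (cal_bip N _)).symm.trans (cal_spec hc ht hN)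
  unfold dec
  simp only [List.any_eq_true, List.mem_range, Bool.and_eq_true, decide_eq_true_eq,
    Bool.not_eq_true']
  constructor
  · intro h
    set N := ⌊c * tt (pp φ)⌋₊ with hN
    have hpos : (0 : ℝ) ≤ c * tt (pp φ) := by positivity
    have h1 : (N : ℝ) ≤ c * tt (pp φ) := Nat.floor_le hpos
    have h2 : c * tt (pp φ) < N + 1 := Nat.lt_floor_add_one _
    have h4 : 4 * tt (pp φ) ≤ N := by
      refine Nat.le_floor ?_
      push_cast
      exact mul_le_mul_of_nonneg_right hc (by positivity)
    refine ⟨N, ?_, h4, (hcal N h4).2 h1, ?_, ?_⟩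
    · have h5 : N ≤ ⌈c⌉₊ * tt (pp φ) := by
        have h6 : (N : ℝ) ≤ (⌈c⌉₊ : ℝ) * tt (pp φ) :=
          h1.trans (mul_le_mul_of_nonneg_right (Nat.le_ceil c) (by positivity))
        exact_mod_cast h6
      omega
    · rw [← Bool.not_eq_true, hcal (N + 1) (by omega)]
      push_cast
      linarith
    · rw [← hd _ (inst_bip N _), inst_spec hc (two_le φ) h1 h2]
      exact hsat.1 h
  · rintro ⟨N, _, h4, h1, h2, h3⟩
    rw [hcal N h4] at h1
    rw [← Bool.not_eq_true, hcal (N + 1) (by omega)] at h2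
    push_cast at h2
    rw [← hd _ (inst_bip N _), inst_spec hc (two_le φ) h1 (not_le.1 h2)] at h3
    exact hsat.2 h3

/-- For every rational constant `c ≥ 4` it is `NP`-hard to decide whether a bipartite (hence
perfect) graph has a skew partition of balanced size with constant `c`. If `P ≠ NP`, then for every
real constant `c ≥ 4` no polynomial-time algorithm finds such a partition of a bipartite graph or
reports that none exists. -/
theorem result :
    (∀ c : ℚ, 4 ≤ c → NPHardOn BipPerfect (HasBSP c)) ∧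
    (PneNP → ∀ c : ℝ, 4 ≤ c → ¬ ∃ f : List Bool → List Bool, PolyTime f ∧
      SolvesSearch BipPerfect (BSPSol c) f) := by
  constructor
  · intro c hc
    refine npHardOn_of (hardI_SAT3.toHardPr) (f := fun φ => inst (NN c φ) (pp φ))
      (inst_poly (NN_upoly c) pp_poly) (fun φ _ => inst_bip _ _) fun φ _ => ?_
    have h := NN_spec hc φ
    rw [inst_spec (by exact_mod_cast hc) (two_le φ) h.1 h.2]
    exact (sat3_pad φ).symm
  · rintro hne c hc ⟨f, hf, hs⟩
    obtain ⟨d, hd, h⟩ := poly_of_search hf hs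
    exact no_poly_decider (hardI_SAT3.toHardPr) hne ⟨dec ⌈c⌉₊ d, dec_poly _ hd, fun φ _ =>
      dec_spec hc (fun I hI => exists_sol.symm.trans (h I hI)) φ⟩

end Pool.Agent.Results.MP_447f9a_lc.BipartiteNPHard
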